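import Pool.Agent.U554.TD.OrdTwo

/-!
# Ordinary primes for all direct factors of motives, dimension by dimension, and the cubics `T(x, y, z) = 1`

Let `k = F` be a number field.

* `𝓢` is the semisimple abelian category of the motives of André over `k` of weight `0`, and
  `O b m X = gr^W_0 H_{m + 2 b}(X)(-b)` the pure part of weight `0` of the Borel-Moore homology (a motive of Nori)
  of a separated scheme `X` of finite type over `k`. If `X` is smooth and projective of pure dimension `n`,
  then `O b 0 X = H^{2 i}(X)(i)`, `i = n - b`.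
* `ι`: the pairs `i = (ℓ, τ)`, `ℓ` a prime and `τ` an embedding of the algebraic numbers in `ℚ_ℓ`-bar into `ℚ_p`-bar (for each `p`).
* `R : Slopes ι 𝓢`: the finite extensions `L` of `k`, their finite places, the Hodge-Tate slopes and the slopes
  of the Frobenius of a place on the `ℓ`-adic realizations; `R.big L` is a filter of large sets of places.
* `R.Ordinary M`: there is an `L` such that the Newton polygons of `M` for all `i = (ℓ, τ)` are equal to the
  Hodge-Tate polygon at a large set of places of `L`. `AllFactors R.Ordinary M`: this holds for all direct factors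
  `e M` of `M`.

The sets of density one are an admissible choice of the large sets. For motivated projectors `e` it is not known that
the Newton polygon lies above the Hodge polygon, and this is not assumed.

Let `T` be a trilinear form in three blocks `x`, `y`, `z` of `a₁`, `a₂`, `a₃` variables.

* `bilS T` is the closed subscheme `Z_T` of `𝔸^(a₂ + a₃)` given by the `a₁` bilinear equations
  `∂T/∂x_i (y, z) = 0`;
* `hypS T` is the smooth affine cubic hypersurface `Y_T : T(x, y, z) = 1` of dimension
  `n = a₁ + a₂ + a₃ - 1`; `O (n - j) 1 (hypS T)` is the pure part of weight `0` of `H^{2 j - 1}(Y_T)(j)`.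

The known facts which are used are in `IsPureTheory`, `Slopes`, `ArtinHave` (Artin motives: all slopes are `0`) and
`QuarticsHave` (`K3` surfaces have ordinary reduction at a set of places of density one, after a finite extension:
Bogomolov-Zarhin, Joshi-Rajan; the transcendental part of `H^2` is simple: Zarhin).
-/

set_option autoImplicit false

open CategoryTheory AlgebraicGeometry MvPolynomial Pool.Agent.Y116.UV Pool.Agent.U554.TW Pool.Agent.U554.TD
  Pool.Agent.U483.GU

universe v u

namespace Pool.Agent.Results.MP_0dad22_ag.CubicsByDimension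

/-- **Ordinary primes for all direct factors of motives, dimension by dimension, and the cubics `T(x, y, z) = 1`.**

(A) If two of the three blocks of `T` have at most `4` variables (the third one is arbitrary), or if one block
has at most `3` variables, then all direct factors of `gr^W_0 H_{2 b}(Z_T)(-b)`, for all `b`, and of
`gr^W_0 H^{2 j - 1}(Y_T)(j)`, for all `j ≥ 1`, are ordinary (after a finite extension, at a large set of places).

(B) Let `d ≥ 1` and let `s` be any number. The following are equivalent, and all hold for `d = 1`: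

1. (`d = 1`, or) all direct factors of `H^{2 i}(V)(i)` are ordinary for all `i` and all smooth projective `V` of dimension
   at most `d`;
2. all direct factors of `gr^W_0 H_{2 b}(X)(-b)` are ordinary for all `b` and all separated schemes `X` of finite
   type of dimension at most `d`;
3. the same for all `Z_T` with a block of at most `d + 2` variables, and for all closed subschemes of affine
   spaces which are given by equations with `t_1, …, t_c` terms, `∑ max(t_i - 2, 0) ≤ d`;
4. all direct factors of `gr^W_0 H^{2 j - 1}(Y_T)(j)` are ordinary for all `j ≥ 1` and all `T` with a block of at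
   most `d + 2` variables;
5. the same for all `T` with exactly `d + 2` variables `y` and all `j ≥ 1` with `j ≥ s`. -/
theorem result {ι : Type} {𝓢 : Type u} [Category.{v} 𝓢] [Abelian 𝓢] (R : Slopes ι 𝓢)
    {k : Type} [Field k] [NumberField k] (O : ℤ → ℤ → Sch k → 𝓢) (hO : IsPureTheory O)
    (hA : ArtinHave (AllFactors R.Ordinary) O) (hq : QuarticsHave (AllFactors R.Ordinary) O) :
    (∀ (a₁ a₂ a₃ : ℕ) (T : Fin a₁ → Fin a₂ → Fin a₃ → k),
      OneBlock 3 a₁ a₂ a₃ ∨ TwoBlocks 4 4 a₁ a₂ a₃ →
      AllWeights (AllFactors R.Ordinary) O (bilS T) ∧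
        ∀ j : ℕ, 1 ≤ j → AllFactors R.Ordinary (O (a₁ + a₂ + a₃ - 1 - j) 1 (hypS T))) ∧
    ∀ (d : ℕ), 1 ≤ d → ∀ s : ℕ, List.TFAE [
      d = 1 ∨ ∀ V : Sch k, SmoothProjective V → topologicalKrullDim V.left ≤ d →
        AllWeights (AllFactors R.Ordinary) O V,
      ∀ X : Sch k, FT True X → topologicalKrullDim X.left ≤ d → AllWeights (AllFactors R.Ordinary) O X,
      (∀ (a₁ a₂ a₃ : ℕ) (T : Fin a₁ → Fin a₂ → Fin a₃ → k), OneBlock (d + 2) a₁ a₂ a₃ →
        AllWeights (AllFactors R.Ordinary) O (bilS T)) ∧
      ∀ (n : ℕ) (G : Finset (MvPolynomial (Fin n) k)), ∑ g ∈ G, (g.support.card - 2) ≤ d →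
        AllWeights (AllFactors R.Ordinary) O
          (aff k (MvPolynomial (Fin n) k ⧸ Ideal.span (G : Set (MvPolynomial (Fin n) k)))),
      ∀ (a₁ a₂ a₃ : ℕ) (T : Fin a₁ → Fin a₂ → Fin a₃ → k), OneBlock (d + 2) a₁ a₂ a₃ →
        ∀ j : ℕ, 1 ≤ j → AllFactors R.Ordinary (O (a₁ + a₂ + a₃ - 1 - j) 1 (hypS T)),
      ∀ (a₁ a₃ : ℕ) (T : Fin a₁ → Fin (d + 2) → Fin a₃ → k), ∀ j : ℕ, s ≤ j → 1 ≤ j →
        AllFactors R.Ordinary (O (a₁ + (d + 2) + a₃ - 1 - j) 1 (hypS T))] :=
  have hP := isAdditive_allFactors hO.split R.sum
  ⟨fun _ _ _ T ha => add_small hP hO hA hq T ha, fun d hd s => add_tfae hP hO hA d hd s⟩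

end Pool.Agent.Results.MP_0dad22_ag.CubicsByDimension
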