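import Pool.Agent.U41.OP.Disc3

/-!
# Ordinary primes for orthogonal motives with middle Hodge number two

`K` is a number field.  The `A i` are finitely many pure motives over `K` with multiplication by totally
real or CM fields `(A i).E`, each with its own finite set `S i` of bad residue characteristics (over `K`
the `ℓ`-adic monodromy groups are connected, for one prime `ℓ`), and `δ i` is an integer of `(A i).E`.

A motive `A` of rank `n` is *orthogonal of discriminant* `δ` (`IsOrthogonalDisc`) if its weight is `2 m`, its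
field `E` of multiplications is totally real and `A` has a symmetric `E`-bilinear form of discriminant
`δ`.  What is used of the form: at the places `v` of degree one and the primes `λ` of `E` above `p = N v`
the crystalline realisation is a lattice, over a discrete valuation ring with the same residue field as
`λ`, with a perfect symmetric form whose discriminant is `δ` up to the square of a unit; Frobenius
multiplies the form by `p ^ (2 m)`, and its elementary divisors are given by the Hodge slopes.

Theorem.  Suppose that an element `γ` of the Galois group of `K` is suitable for all `A i`: at every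
vertex of every Hodge polygon the defect condition of the starting result `OrdinarySummands` holds, or

* the motive is orthogonal of discriminant `δ`, the middle slope `m` occurs twice, the vertex is an end of
  the middle segment, the sum of the excesses is at most twice the number of elements of the orbit, and
* `γ` is inert: some power `γ ^ j` fixes the embedding `σ` and moves the square root of
  `(-1) ^ (n / 2) σ(δ)` to its negative.

Let `V j` (`j` in a finite set) be the intersection cohomology groups of projective varieties over a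
subfield `K₀` of `K`, or other strictly compatible systems, which over `K` are, up to a twist, direct
summands of direct sums of tensor products of pieces of the `A i`.  Then the places of `K₀` at which all
`V j` are ordinary have positive lower density, at least the proportion of the suitable elements divided
by `[K : K₀]`.

Example: `E = ℚ`, an orthogonal motive of rank six and weight two with Hodge numbers `2, 2, 2` and
discriminant `δ`, for instance the transcendental part of a surface with `p_g = 2`.  Its signature is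
`(4, 2)`, so that `δ > 0` and `ℚ(√-δ)` is imaginary quadratic.  The elements `γ` which move `√-δ` are
suitable, and the surface is ordinary at almost all places with such Frobenius elements.

Proof.  Let `P` be the Frobenius polynomial, `q = p ^ m`, `G` the Gram matrix and `Φ` the matrix of
Frobenius at `λ`.  Outside a set of density zero the order of `P(-q)` is not larger than the bound given
by the Hodge polygon (parity of the order and an archimedean bound, see `MP_db07cb_ag/OrthogonalPieces`),
and `det Φ = q ^ n`.  Suppose that there is an excess at the ends of the middle segment.  Then `P(q)` and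
`P(-q)` are both determined, modulo higher powers of `p`, by the middle coefficient `Z`:
`P(± q) ≡ (± 1) ^ (n / 2) Z`.  The matrix `G Φ - Φᵀ G` is skew-symmetric, its determinant is a square, and
`(G Φ - Φᵀ G) Φ = G (Φ - q) (Φ + q)`, so that `det G · P(q) P(-q) · q ^ n` is a square.  It follows that
`(-1) ^ (n / 2) δ` is a square modulo `λ`, which is impossible if Frobenius is inert.
-/

set_option autoImplicit false

namespace Pool.Agent.Results.MP_0dad22_ag.MiddleHodgeNumberTwo

open NumberField IsDedekindDomain Polynomial Filter Topology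
open Pool.Agent.W401.Cheb Pool.Agent.W528.Ord Pool.Agent.R915.Ord Pool.Agent.W850.Ord
open Pool.Agent.U41.OP

/-- The `V ℓ'` are strictly compatible: at the places of degree one outside `T` the characteristic
polynomial of the geometric Frobenius element (the inverse of `γ`) is `F v`. -/
def StrictlyCompatible {K₀ : Type} [Field K₀] [NumberField K₀] (T : Finset ℕ) {r : ℕ}
    (V : ∀ (ℓ' : ℕ) [Fact ℓ'.Prime], GK K₀ →* Matrix.GeneralLinearGroup (Fin r) ℚ_[ℓ'])
    (F : HeightOneSpectrum (𝓞 K₀) → Polynomial ℤ) : Prop :=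
  ∀ (ℓ' : ℕ) [Fact ℓ'.Prime] (v₀ : HeightOneSpectrum (𝓞 K₀)), MultSystem.IsDeg1 T v₀ →
    Ideal.absNorm v₀.asIdeal ≠ ℓ' → ∀ γ : GK K₀, IsFrob v₀ γ →
      (V ℓ' γ⁻¹ : Matrix (Fin r) (Fin r) ℚ_[ℓ']).charpoly = (F v₀).map (Int.castRingHom ℚ_[ℓ'])

/-- `v₀` has degree one, and for every prime `ℓ'` different from the residue characteristic `p = N v₀`
and every embedding `τ` of the field of algebraic numbers the Newton polygon of `V ℓ'` at `v₀` has the
slopes `H`. -/
def Ordinary {K₀ : Type} [Field K₀] [NumberField K₀] {r : ℕ}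
    (V : ∀ (ℓ' : ℕ) [Fact ℓ'.Prime], GK K₀ →* Matrix.GeneralLinearGroup (Fin r) ℚ_[ℓ'])
    (H : Multiset ℕ) (v₀ : HeightOneSpectrum (𝓞 K₀)) : Prop :=
  ∃ (p : ℕ) (_ : Fact p.Prime), Ideal.absNorm v₀.asIdeal = p ∧
    ∀ (ℓ' : ℕ) [Fact ℓ'.Prime], p ≠ ℓ' → ∀ γ : GK K₀, IsFrob v₀ γ →
      ∀ τ : algebraicClosure ℚ (PadicAlgCl ℓ') →+* PadicAlgCl p,
        NewtonTau (V ℓ' γ⁻¹ : Matrix (Fin r) (Fin r) ℚ_[ℓ']) τ H

/-- all `V j` are ordinary at `v₀` -/
def AllOrdinary {K₀ : Type} [Field K₀] [NumberField K₀] {ν : Type} {r : ν → ℕ}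
    (V : ∀ (j : ν) (ℓ' : ℕ) [Fact ℓ'.Prime], GK K₀ →* Matrix.GeneralLinearGroup (Fin (r j)) ℚ_[ℓ'])
    (H : ν → Multiset ℕ) (v₀ : HeightOneSpectrum (𝓞 K₀)) : Prop :=
  ∀ j, Ordinary (V j) (H j) v₀

theorem ordinary_of {K₀ : Type} [Field K₀] [NumberField K₀] (T : Finset ℕ) {r : ℕ}
    (V : ∀ (ℓ' : ℕ) [Fact ℓ'.Prime], GK K₀ →* Matrix.GeneralLinearGroup (Fin r) ℚ_[ℓ'])
    (F : HeightOneSpectrum (𝓞 K₀) → Polynomial ℤ) (H : Multiset ℕ) (hV : StrictlyCompatible T V F)
    (v₀ : HeightOneSpectrum (𝓞 K₀)) (hv : MultSystem.IsDeg1 T v₀)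
    (hN : NewtonSlopes (Ideal.absNorm v₀.asIdeal) (F v₀) H) : Ordinary V H v₀ := by
  have hN' := hN
  obtain ⟨hp, -⟩ := hN
  refine ⟨Ideal.absNorm v₀.asIdeal, hp, rfl, ?_⟩
  intro ℓ' _ hne γ hγ τ
  exact newtonTau_of _ τ _ (F v₀) (hV ℓ' v₀ hv hne γ hγ) hN'

theorem result (K₀ K : Type) [Field K₀] [NumberField K₀] [Field K] [NumberField K] [Algebra K₀ K]
    (ℓ : ℕ) [Fact ℓ.Prime] {ι : Type} [Fintype ι] (A : ι → MotSystem K ℓ)
    (χ : GK K →* (PadicAlgCl ℓ)ˣ) (S : ι → Finset ℕ) (hA : ∀ i, (A i).IsMotive χ (S i))
    (δ : ∀ i, 𝓞 (A i).E) (hγ : ∃ γ : GK K, ∀ i, SuitableD (A i) (δ i) (S i) γ)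
    (T : Finset ℕ) (ν : Type) [Finite ν] (r : ν → ℕ)
    (V : ∀ (j : ν) (ℓ' : ℕ) [Fact ℓ'.Prime], GK K₀ →* Matrix.GeneralLinearGroup (Fin (r j)) ℚ_[ℓ'])
    (F : ν → HeightOneSpectrum (𝓞 K₀) → ℤ[X]) (H : ν → Multiset ℕ)
    (hV : ∀ j, StrictlyCompatible T (V j) (F j)) (hF : ∀ j, IsSummand A T (F j) (H j)) :
    0 < lowerDensity (AllOrdinary V H) ∧
    suitProportionD A δ S / (Module.finrank K₀ K : ℝ) ≤ lowerDensity (AllOrdinary V H) := by
  have : FiniteDimensional K₀ K := Module.Finite.of_restrictScalars_finite ℚ K₀ K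
  have hd : (0 : ℝ) < (Module.finrank K₀ K : ℝ) := by exact_mod_cast Module.finrank_pos
  have key : suitProportionD A δ S / (Module.finrank K₀ K : ℝ) ≤ lowerDensity (AllOrdinary V H) := by
    refine (lower_below_suitD A δ χ S hA).trans (lowerDensity_le_of_finite _ _ T ?_)
    rintro v₀ ⟨v, h0, hg⟩ hT j
    have e := under_norm v hg.1 v₀ h0
    refine ordinary_of T (V j) (F j) (H j) (hV j) v₀ ⟨e ▸ hg.1, hT⟩ ?_
    exact newton_of_good' A χ S hA (hF j) v₀ v h0 hg (e ▸ hT)
  exact ⟨lt_of_lt_of_le (div_pos (suitProportionD_pos A δ S hγ) hd) key, key⟩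

end Pool.Agent.Results.MP_0dad22_ag.MiddleHodgeNumberTwo
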