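import Pool.Agent.Results.MP_db07cb_ag.OneSetOfPrimes

/-!
# Ordinary primes for summands of motives of intersection cohomology: one set of primes

Q1 says that every summand `R = e M` of a motive `M` which realises `H^k(X, j_{!*} R^i π_* ℚ_ℓ)` has
infinitely many ordinary primes: the Newton polygons of `R_ℓ` for all primes `ℓ` and all embeddings `τ`
of the field of the algebraic numbers are equal to the Hodge–Tate polygon.

The summands for which the Newton polygon is known to lie on or above the Hodge–Tate polygon, for them
and for the complement (for instance if `e` is an algebraic cycle), are the members of `Piece F` here. By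
the decomposition theorem `R` is a summand of the cohomology of a smooth projective variety `Y` (a
compactification of the total space of `π`).

**Theorem.** The following are equivalent:

1. Q1 for all these summands;
2. the cohomology in the middle degree of every smooth projective variety over `ℚ` has infinitely many
  ordinary primes;
3. for every smooth projective variety over `ℚ` there is ONE prime number at which its cohomology (in all
  degrees) is unramified and ordinary;
4. for all number fields `F`, all number fields `L` which are contained in a CM field (or `L = ℚ`) and every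
  finite family of summands over `F` there are infinitely many prime numbers which split completely in `L`
  such that all places of `F` above them are ordinary for all members of the family;
5. there is ONE infinite set `P` of prime numbers such that for every number field `F` and every summand
  `R` over `F` all places of `F` above almost all `p ∈ P` are ordinary for `R`, and almost all `p ∈ P` split
  completely in `F` if `F` is contained in a CM field.

So the coefficients, the idempotents, the embeddings `τ` and the base field do not matter: if Q1 fails
for some `R` then there is a smooth projective variety over `ℚ` whose cohomology is not ordinary at any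
prime.

The proof uses the results for projective varieties, `MP_db07cb_ag.OneSetOfPrimes`.
-/

set_option autoImplicit false

namespace Pool.Agent.Results.MP_0dad22_ag.OneSetOfPrimes

open NumberField IsDedekindDomain Finset Pool.Agent.U644.OP
open Pool.Agent.U8.IH (LiesAbove pairSums factors_eq summand_eq)
open Pool.Agent.Results.MP_db07cb_ag.OneSetOfPrimes (Theory Splits Facts MiddleDegree OnePrime
  Families OneSet InCM inCM_rat)

/-- The summands over the number fields. -/
structure Summands (T : Theory) where
  /-- the summands over the number field `F`: the data `X`, `U`, `π`, `i`, `k` with (A) and an idempotent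
  such that the Newton polygons of the summand and of its complement lie above the Hodge polygons -/
  Piece : (F : Type) → [Field F] → [NumberField F] → Type
  /-- the pairs `(ℓ, τ)` of a prime `ℓ` and an embedding `τ` of the field of the algebraic numbers -/
  Pair : Type
  /-- `(ℓ, τ)` can be used at the place `v`: the prime `ℓ` is not the residue characteristic of `v`, and
  `τ` is an embedding in the algebraic closure of `ℚ_p`, `p` the residue characteristic -/
  At : {F : Type} → [Field F] → [NumberField F] → HeightOneSpectrum (𝓞 F) → Pair → Prop
  /-- the Hodge–Tate weights of `R_ℓ`, with multiplicities -/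
  weights : {F : Type} → [Field F] → [NumberField F] → Piece F → Multiset ℚ
  /-- `R_ℓ` is unramified at the place `v` for all `ℓ` different from the residue characteristic -/
  Unram : {F : Type} → [Field F] → [NumberField F] → Piece F → HeightOneSpectrum (𝓞 F) → Prop
  /-- the slopes of the Frobenius at `v` on `R_ℓ` for the embedding `τ`, with multiplicities -/
  slopes : {F : Type} → [Field F] → [NumberField F] → Piece F → HeightOneSpectrum (𝓞 F) → Pair →
    Multiset ℚ

variable {T : Theory}

/-- `v` is an ordinary prime for `R`: unramified, and for all `ℓ` and `τ` the Newton polygon is the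
Hodge–Tate polygon. -/
def Summands.Ord (P : Summands T) {F : Type} [Field F] [NumberField F] (R : P.Piece F)
    (v : HeightOneSpectrum (𝓞 F)) : Prop :=
  P.Unram R v ∧ ∀ j, P.At v j → P.slopes R v j = P.weights R

/-- All places above the prime number `p` are ordinary for `R`. -/
def Summands.OrdAbove (P : Summands T) {F : Type} [Field F] [NumberField F] (R : P.Piece F) (p : ℕ) :
    Prop :=
  ∀ v : HeightOneSpectrum (𝓞 F), (p : 𝓞 F) ∈ v.asIdeal → P.Ord R v

/-- The known facts which are used. -/
structure SummandFacts (P : Summands T) : Prop where
  /-- the cohomology of a smooth projective variety over `ℚ` is among the summands -/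
  of_smooth : ∀ X : T.Var ℚ, X ∈ T.Smooth → ∀ n, ∃ R : P.Piece ℚ,
    ∃ S : Set (HeightOneSpectrum (𝓞 ℚ)), S.Finite ∧ ∀ v ∉ S, P.Ord R v → T.Ord X n v
  /-- the decomposition theorem: `R` is a direct summand of the cohomology of a smooth projective variety
  `Y`, and the Newton polygons of `R` and of the complement lie on or above the Hodge polygons -/
  decomposition : ∀ {F : Type} [Field F] [NumberField F] (R : P.Piece F), ∃ Y : T.Var F, Y ∈ T.Smooth ∧
    ∃ n : ℕ, ∃ S : Set (HeightOneSpectrum (𝓞 F)), S.Finite ∧ ∃ w : Multiset ℚ,
      T.weights Y n = P.weights R + w ∧ ∀ v ∉ S, P.Unram R v ∧ ∀ j, P.At v j → ∃ s : Multiset ℚ,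
        T.slopes Y n v = P.slopes R v j + s ∧ LiesAbove (P.slopes R v j) (P.weights R) ∧
        LiesAbove s w

/-- Q1 for the summands. -/
def OrdinaryPrimes (P : Summands T) : Prop :=
  ∀ (F : Type) [Field F] [NumberField F] (R : P.Piece F),
    {v : HeightOneSpectrum (𝓞 F) | P.Ord R v}.Infinite

/-- Finite families of summands have infinitely many common ordinary primes which split completely in a
given number field which is contained in a CM field. -/
def FamiliesOfSummands (P : Summands T) : Prop :=
  ∀ (F : Type) [Field F] [NumberField F] (ι : Type) [Finite ι] (R : ι → P.Piece F) (L : Type)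
    [Field L] [NumberField L], InCM L →
    {p : ℕ | p.Prime ∧ Splits p L ∧ ∀ i, P.OrdAbove (R i) p}.Infinite

/-- One infinite set of prime numbers for all number fields and all summands; almost all its elements split
completely in a given number field which is contained in a CM field. -/
def OneSetForSummands (P : Summands T) : Prop :=
  ∃ Q : Set ℕ, Q.Infinite ∧ (∀ p ∈ Q, p.Prime) ∧
    ∀ (F : Type) [Field F] [NumberField F] (R : P.Piece F),
      {p ∈ Q | ¬ ((InCM F → Splits p F) ∧ P.OrdAbove R p)}.Finite

/-- A summand is controlled by a smooth projective variety over the same field. -/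
lemma of_variety {P : Summands T} (hP : SummandFacts P) {F : Type} [Field F] [NumberField F]
    (R : P.Piece F) : ∃ Y : T.Var F, ∃ S : Set ℕ, S.Finite ∧
      ∀ p, p.Prime → p ∉ S → T.OrdAll Y p → P.OrdAbove R p := by
  obtain ⟨Y, _, n, S, hS, w, hw, h⟩ := hP.decomposition R
  refine ⟨Y, {p : ℕ | p.Prime ∧ ∃ v ∈ S, (p : 𝓞 F) ∈ v.asIdeal}, finite_below hS,
    fun p hp hpS hord v hv => ?_⟩
  have hvS : v ∉ S := fun hmem => hpS ⟨hp, v, hmem, hv⟩
  obtain ⟨hu, h1⟩ := h v hvS
  refine ⟨hu, fun j hj => ?_⟩
  obtain ⟨s, hs, h2, h3⟩ := h1 j hj
  have h4 := (hord v hv n).2
  rw [hs, hw] at h4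
  exact summand_eq h2 h3 h4

lemma families_of {P : Summands T} (hP : SummandFacts P) (h : Families T) :
    FamiliesOfSummands P := by
  intro F _ _ ι _ R L _ _ hL
  have h1 := fun i => of_variety hP (R i)
  choose Y S hS hR using h1
  have h2 := h F ι Y L hL
  refine (h2.sdiff (Set.finite_iUnion hS)).mono ?_
  rintro p ⟨⟨hp, hL, hord⟩, hpS⟩
  refine ⟨hp, hL, fun i => hR i p hp (fun hmem => hpS (Set.mem_iUnion.2 ⟨i, hmem⟩)) (hord i)⟩

lemma oneSet_of {P : Summands T} (hP : SummandFacts P) (h : OneSet T) : OneSetForSummands P := by
  obtain ⟨Q, hQ, hQp, hfin⟩ := h
  refine ⟨Q, hQ, hQp, fun F _ _ R => ?_⟩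
  obtain ⟨Y, S, hS, hR⟩ := of_variety hP R
  refine ((hfin F Y).union hS).subset ?_
  rintro p ⟨hpQ, hp⟩
  by_contra hnot
  simp only [Set.mem_union, not_or] at hnot
  have h1 : (InCM F → Splits p F) ∧ T.OrdAll Y p := by
    by_contra hno
    exact hnot.1 ⟨hpQ, hno⟩
  exact hp ⟨h1.1, hR p (hQp p hpQ) hnot.2 h1.2⟩

lemma ordinary_of_families {P : Summands T} (h : FamiliesOfSummands P) : OrdinaryPrimes P := by
  intro F _ _ R hfin
  have hinf := h F Unit (fun _ => R) ℚ inCM_rat
  obtain ⟨p, ⟨hp, _, hord⟩, hpn⟩ := (hinf.sdiff (finite_below hfin)).nonempty
  obtain ⟨v, hv⟩ := exists_above F hp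
  exact hpn ⟨hp, v, hord () v hv, hv⟩

lemma ordinary_of_oneSet {P : Summands T} (h : OneSetForSummands P) : OrdinaryPrimes P := by
  intro F _ _ R hfin
  obtain ⟨Q, hQ, hQp, hall⟩ := h
  obtain ⟨p, hpQ, hpn⟩ := (hQ.sdiff ((hall F R).union (finite_below hfin))).nonempty
  simp only [Set.mem_union, not_or] at hpn
  have h1 : (InCM F → Splits p F) ∧ P.OrdAbove R p := by
    by_contra hno
    exact hpn.1 ⟨hpQ, hno⟩
  obtain ⟨v, hv⟩ := exists_above F (hQp p hpQ)
  exact hpn.2 ⟨hQp p hpQ, v, h1.2 v hv, hv⟩

lemma middle_of {P : Summands T} (hP : SummandFacts P) (h : OrdinaryPrimes P) : MiddleDegree T := by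
  intro X hX
  obtain ⟨R, S, hS, hR⟩ := hP.of_smooth X hX (T.dim X)
  exact ((h ℚ R).sdiff hS).mono fun v hv => hR v hv.2 hv.1

/-- **One set of primes for all summands.** Q1 for all summands for which (and for whose complements) the
Newton polygon lies above the Hodge polygon is equivalent to the existence of infinitely many ordinary
primes in the middle degree for the smooth projective varieties over `ℚ`, to the existence of one ordinary
prime for every smooth projective variety over `ℚ`, to infinitely many common ordinary primes of finite
families of summands (split completely in a number field contained in a CM field), and to the existence of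
one infinite set of prime numbers for all summands over all number fields. -/
theorem result (T : Theory) (hT : Facts T) (P : Summands T) (hP : SummandFacts P) :
    List.TFAE [OrdinaryPrimes P, MiddleDegree T, OnePrime T, FamiliesOfSummands P,
      OneSetForSummands P] := by
  have hT5 := Pool.Agent.Results.MP_db07cb_ag.OneSetOfPrimes.result T hT
  have h23 : MiddleDegree T → OnePrime T := (hT5.out 1 2).1
  have h34 : OnePrime T → Families T := (hT5.out 2 3).1
  have h35 : OnePrime T → OneSet T := (hT5.out 2 4).1
  tfae_have 1 → 2 := middle_of hP
  tfae_have 2 → 3 := h23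
  tfae_have 3 → 4 := fun h => families_of hP (h34 h)
  tfae_have 3 → 5 := fun h => oneSet_of hP (h35 h)
  tfae_have 4 → 1 := ordinary_of_families
  tfae_have 5 → 1 := ordinary_of_oneSet
  tfae_finish

end Pool.Agent.Results.MP_0dad22_ag.OneSetOfPrimes
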