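import Pool.Agent.U41.TF.Main

/-!
# Ordinary primes and tensor factors

`K` is a number field, `K₀` a subfield. The `A i` are finitely many pure motives over `K` with
multiplication by totally real or CM fields `(A i).E`, each with its own finite set `S i` of bad residue
characteristics (over `K` the `ℓ`-adic monodromy groups are connected, for one prime `ℓ`); their pieces are
the `σ`-parts, `σ` an embedding of `(A i).E`. A system over `K` is *generated* by the pieces (`Generated`) if
it is obtained from the pieces and the Tate motive by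

* direct sums, tensor products, inverse twists, direct summands (with Mazur's inequality), as in the tensor
  category generated by the `A i`, and
* **tensor factors**: if `V ⊗ W` is generated and `W ≠ 0`, then `V` is generated (with Mazur's inequality for
  `V` and `W`).

Because of the last operation many motives of large rank, which do not lie in the tensor category of the
`A i` and do not satisfy the orbit condition themselves, are generated:

* the Kuga-Satake abelian varieties `B` of K3 surfaces and of motives of K3 type (also with real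
  multiplication, then also their corestrictions): `H¹(B) ⊗ H¹(B)` is a sum of twists of exterior powers of the
  motive of K3 type, but `H¹(B)` is not in its tensor category, and the total defect of `H¹(B)` is its
  dimension, which is unbounded;
* the abelian varieties of Mumford's type, of dimension `2 ^ (d - 1)` for a totally real field `F` of odd
  degree `d`, and other abelian varieties attached to quaternion algebras over `F`: `H¹ ⊗ H¹` is a tensor
  product of `d` factors `1 ⊕ M_σ`, and `M` is a motive of rank three over `F` which is of K3 type at one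
  embedding and of Tate type at the others;
* the abelian varieties whose `H¹` is an exterior power of the `H¹` of an abelian variety of Picard type (of
  signature `(n, 1)`), up to a twist by a character: `V` with `V ⊗ V^∨ = W ⊗ W^∨`, `W` generated.

Theorem. (1) At every place of degree one at which all the pieces are ordinary every generated system is
ordinary. (2) If some element `γ` of the Galois group of `K` satisfies the orbit condition for all `A i`, then
any finite number of strictly compatible systems over `K₀`, which are generated over `K`, are all ordinary at a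
set of places of `K₀` of lower density at least the proportion of such `γ` divided by `[K : K₀]`; the
proportion is one if the identity satisfies the condition, as for motives of K3 type, elliptic curves, abelian
surfaces and abelian varieties of Picard type.

The starting result `OrdinarySummands` has direct sums of pieces; the new point is the tensor factor. Proof:
let `N, N'` be the absolute values of the eigenvalues of `V, W`, let `Z, Z'` be those predicted by the Hodge
slopes, and let `G_N(r)` be the product of the `max(r, x)`, `x ∈ N` (the Gauss norm of the Frobenius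
polynomial). Mazur's inequality says `G_N ≤ G_Z` and `G_N' ≤ G_Z'`. As
`G_{N N'}(r) = ∏_{x ∈ N} x ^ n' G_N'(r / x) ≤ ∏_{x ∈ N} x ^ n' G_Z'(r / x) = ∏_{z ∈ Z'} z ^ n G_N(r / z) ≤
∏_{z ∈ Z'} z ^ n G_Z(r / z) = G_{Z Z'}(r)`,
the equality `N N' = Z Z'` implies `G_N = G_Z` and `N = Z`.
-/

set_option autoImplicit false

namespace Pool.Agent.Results.MP_0dad22_ag.TensorFactors

open NumberField IsDedekindDomain Polynomial Filter Topology
open Pool.Agent.W401.Cheb Pool.Agent.W528.Ord Pool.Agent.R915.Ord Pool.Agent.W850.Ord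
open Pool.Agent.U41.TF

/-- The `V ℓ'` are strictly compatible: at the places of degree one outside `T` the characteristic
polynomial of the geometric Frobenius element (the inverse of `γ`) is `F v`. -/
def StrictlyCompatible {K₀ : Type} [Field K₀] [NumberField K₀] (T : Finset ℕ) {r : ℕ}
    (V : ∀ (ℓ' : ℕ) [Fact ℓ'.Prime], GK K₀ →* Matrix.GeneralLinearGroup (Fin r) ℚ_[ℓ'])
    (F : HeightOneSpectrum (𝓞 K₀) → Polynomial ℤ) : Prop :=
  ∀ (ℓ' : ℕ) [Fact ℓ'.Prime] (v₀ : HeightOneSpectrum (𝓞 K₀)), MultSystem.IsDeg1 T v₀ →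
    Ideal.absNorm v₀.asIdeal ≠ ℓ' → ∀ γ : GK K₀, IsFrob v₀ γ →
      (V ℓ' γ⁻¹ : Matrix (Fin r) (Fin r) ℚ_[ℓ']).charpoly = (F v₀).map (Int.castRingHom ℚ_[ℓ'])

/-- `v₀` has degree one, and for every prime `ℓ'` different from the residue characteristic `p = N v₀`
and every embedding `τ` of the field of algebraic numbers the Newton polygon of `V ℓ'` at `v₀` has the
slopes `H`. -/
def Ordinary {K₀ : Type} [Field K₀] [NumberField K₀] {r : ℕ}
    (V : ∀ (ℓ' : ℕ) [Fact ℓ'.Prime], GK K₀ →* Matrix.GeneralLinearGroup (Fin r) ℚ_[ℓ'])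
    (H : Multiset ℕ) (v₀ : HeightOneSpectrum (𝓞 K₀)) : Prop :=
  ∃ (p : ℕ) (_ : Fact p.Prime), Ideal.absNorm v₀.asIdeal = p ∧
    ∀ (ℓ' : ℕ) [Fact ℓ'.Prime], p ≠ ℓ' → ∀ γ : GK K₀, IsFrob v₀ γ →
      ∀ τ : algebraicClosure ℚ (PadicAlgCl ℓ') →+* PadicAlgCl p,
        NewtonTau (V ℓ' γ⁻¹ : Matrix (Fin r) (Fin r) ℚ_[ℓ']) τ H

theorem ordinary_of {K₀ : Type} [Field K₀] [NumberField K₀] (T : Finset ℕ) {r : ℕ}
    (V : ∀ (ℓ' : ℕ) [Fact ℓ'.Prime], GK K₀ →* Matrix.GeneralLinearGroup (Fin r) ℚ_[ℓ'])
    (F : HeightOneSpectrum (𝓞 K₀) → Polynomial ℤ) (H : Multiset ℕ) (hV : StrictlyCompatible T V F)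
    (v₀ : HeightOneSpectrum (𝓞 K₀)) (hv : MultSystem.IsDeg1 T v₀)
    (hN : NewtonSlopes (Ideal.absNorm v₀.asIdeal) (F v₀) H) : Ordinary V H v₀ := by
  have hN' := hN
  obtain ⟨hp, -⟩ := hN
  refine ⟨Ideal.absNorm v₀.asIdeal, hp, rfl, ?_⟩
  intro ℓ' _ hne γ hγ τ
  exact newtonTau_of _ τ _ (F v₀) (hV ℓ' v₀ hv hne γ hγ) hN'

/-- **Tensor factors of ordinary systems are ordinary.** -/
theorem result (K₀ K : Type) [Field K₀] [NumberField K₀] [Field K] [NumberField K] [Algebra K₀ K]
    (ℓ : ℕ) [Fact ℓ.Prime] {ι : Type} [Fintype ι] (A : ι → MotSystem K ℓ)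
    (χ : GK K →* (PadicAlgCl ℓ)ˣ) (S : ι → Finset ℕ) (hA : ∀ i, (A i).IsMotive χ (S i))
    (T : Finset ℕ) :
    -- (1) the places at which the pieces are ordinary
    (∀ (v₀ : HeightOneSpectrum (𝓞 K₀)) (v : HeightOneSpectrum (𝓞 K)),
      v.asIdeal.comap (algebraMap (𝓞 K₀) (𝓞 K)) = v₀.asIdeal → Good A S v →
      Ideal.absNorm v.asIdeal ∉ T →
      ∀ (r : ℕ) (V : ∀ (ℓ' : ℕ) [Fact ℓ'.Prime], GK K₀ →* Matrix.GeneralLinearGroup (Fin r) ℚ_[ℓ'])
        (F : HeightOneSpectrum (𝓞 K₀) → ℤ[X]) (H : Multiset ℕ),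
        StrictlyCompatible T V F → IsGenerated A T F H → Ordinary V H v₀) ∧
    -- (2) density
    ∀ (ν : Type) [Finite ν] (r : ν → ℕ)
      (V : ∀ (j : ν) (ℓ' : ℕ) [Fact ℓ'.Prime], GK K₀ →* Matrix.GeneralLinearGroup (Fin (r j)) ℚ_[ℓ'])
      (F : ν → HeightOneSpectrum (𝓞 K₀) → ℤ[X]) (H : ν → Multiset ℕ),
      (∀ j, StrictlyCompatible T (V j) (F j)) → (∀ j, IsGenerated A T (F j) (H j)) →
      (∃ γ : GK K, ∀ i, (A i).Admissible γ) →
      0 < lowerDensity (fun v₀ : HeightOneSpectrum (𝓞 K₀) => ∀ j, Ordinary (V j) (H j) v₀) ∧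
      MotSystem.admProportion A / (Module.finrank K₀ K : ℝ) ≤
        lowerDensity (fun v₀ : HeightOneSpectrum (𝓞 K₀) => ∀ j, Ordinary (V j) (H j) v₀) ∧
      ((∀ i, (A i).Admissible 1) → MotSystem.admProportion A = 1) := by
  have : FiniteDimensional K₀ K := Module.Finite.of_restrictScalars_finite ℚ K₀ K
  have hd : (0 : ℝ) < (Module.finrank K₀ K : ℝ) := by exact_mod_cast Module.finrank_pos
  have part1 : ∀ (v₀ : HeightOneSpectrum (𝓞 K₀)) (v : HeightOneSpectrum (𝓞 K)),
      v.asIdeal.comap (algebraMap (𝓞 K₀) (𝓞 K)) = v₀.asIdeal → Good A S v →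
      Ideal.absNorm v.asIdeal ∉ T →
      ∀ (r : ℕ) (V : ∀ (ℓ' : ℕ) [Fact ℓ'.Prime], GK K₀ →* Matrix.GeneralLinearGroup (Fin r) ℚ_[ℓ'])
        (F : HeightOneSpectrum (𝓞 K₀) → ℤ[X]) (H : Multiset ℕ),
        StrictlyCompatible T V F → IsGenerated A T F H → Ordinary V H v₀ := by
    intro v₀ v h0 hg hT r V F H hV hF
    have e := under_norm v hg.1 v₀ h0
    exact ordinary_of T V F H hV v₀ ⟨e ▸ hg.1, e ▸ hT⟩ (newton_of_gen A χ S hA hF v₀ v h0 hg hT)
  refine ⟨part1, ?_⟩
  intro ν _ r V F H hV hF hγ
  have key : MotSystem.admProportion A / (Module.finrank K₀ K : ℝ) ≤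
      lowerDensity (fun v₀ : HeightOneSpectrum (𝓞 K₀) => ∀ j, Ordinary (V j) (H j) v₀) := by
    refine (lower_below A χ S hA).trans (lowerDensity_le_of_finite _ _ T ?_)
    rintro v₀ ⟨v, h0, hg⟩ hT j
    have e := under_norm v hg.1 v₀ h0
    exact part1 v₀ v h0 hg (e ▸ hT) (r j) (V j) (F j) (H j) (hV j) (hF j)
  exact ⟨lt_of_lt_of_le (div_pos (MotSystem.admProportion_pos A hγ) hd) key, key,
    MotSystem.admProportion_one A⟩

end Pool.Agent.Results.MP_0dad22_ag.TensorFactors
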